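import Pool.Agent.Helper97.BT.NumA

/-!
# BT, piece C of the numbers: the error of the game
-/

set_option autoImplicit false

namespace Pool.Agent.Helper42.BT

/-- The number of types. -/
theorem types_le {s w q t S : ℕ} (hs : 2 ^ 60 ≤ s) (hw : 2 ^ w ≤ s) (hq : q = s ^ 8) (hS : S ≤ 2 ^ s)
    (ht : t ≤ (S * (2 ^ s + 1) * (w + 2) ^ q) ^ ((w + 1) * q + 2)) : t ≤ 2 ^ (s ^ 20) := by
  have hs4 : 4 ≤ s := le_trans (by norm_num) hs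
  have hs0 : 0 < s := by omega
  have hws : w + 1 ≤ s := le_trans Nat.lt_two_pow_self hw
  have h1 : w + 2 ≤ 2 ^ s := by
    have : s + 1 ≤ 2 ^ s := Nat.lt_two_pow_self
    omega
  have h2 : 2 ^ s + 1 ≤ 2 ^ (s + 1) := by
    rw [pow_succ]
    have : 1 ≤ 2 ^ s := Nat.one_le_two_pow
    omega
  have h3 : S * (2 ^ s + 1) * (w + 2) ^ q ≤ 2 ^ (2 * s + 1 + s ^ 9) := by
    calc S * (2 ^ s + 1) * (w + 2) ^ q ≤ 2 ^ s * 2 ^ (s + 1) * (2 ^ s) ^ q :=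
          Nat.mul_le_mul (Nat.mul_le_mul hS h2) (Nat.pow_le_pow_left h1 _)
      _ = 2 ^ (2 * s + 1 + s ^ 9) := by
          rw [← pow_add, ← pow_mul, ← pow_add, hq]
          congr 1
          ring
  have h5 : s ^ 2 * 1 ≤ s ^ 2 * s ^ 7 := Nat.mul_le_mul_left _ (Nat.one_le_pow _ _ hs0)
  have h5' : s ^ 2 * s ^ 7 = s ^ 9 := by ring
  have h6 : 4 * s ≤ s ^ 2 := by nlinarith
  have h4 : (2 * s + 1 + s ^ 9) * ((w + 1) * q + 2) ≤ s ^ 20 := by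
    have a1 : 2 * s + 1 + s ^ 9 ≤ 2 * s ^ 9 := by omega
    have a2 : (w + 1) * q + 2 ≤ 2 * s ^ 9 := by
      have : (w + 1) * q ≤ s ^ 9 := by
        calc (w + 1) * q ≤ s * s ^ 8 := by
              rw [hq]
              exact Nat.mul_le_mul_right _ hws
          _ = s ^ 9 := by ring
      omega
    calc (2 * s + 1 + s ^ 9) * ((w + 1) * q + 2) ≤ 2 * s ^ 9 * (2 * s ^ 9) := Nat.mul_le_mul a1 a2
      _ = 2 * 2 * s ^ 18 := by ring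
      _ ≤ s * s * s ^ 18 := Nat.mul_le_mul_right _ (Nat.mul_le_mul (by omega) (by omega))
      _ = s ^ 20 := by ring
  calc t ≤ (S * (2 ^ s + 1) * (w + 2) ^ q) ^ ((w + 1) * q + 2) := ht
    _ ≤ (2 ^ (2 * s + 1 + s ^ 9)) ^ ((w + 1) * q + 2) := Nat.pow_le_pow_left h3 _
    _ = 2 ^ ((2 * s + 1 + s ^ 9) * ((w + 1) * q + 2)) := (pow_mul _ _ _).symm
    _ ≤ 2 ^ (s ^ 20) := Nat.pow_le_pow_right (by norm_num) h4

/-- Piece C: the error of the game. -/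
theorem numC {s k w q t h S L : ℕ} {θ : ℝ} (hs : 2 ^ 60 ≤ s) (hk : s ^ 2000 ≤ k)
    (hw : 2 ^ w ≤ s) (hθ : 1 / (s : ℝ) ≤ θ) (hL : L = k ^ 60) (hq : q = s ^ 8) (hh : h = L / (20 * s ^ 2))
    (hS : S ≤ 2 ^ s) (ht : t ≤ (S * (2 ^ s + 1) * (w + 2) ^ q) ^ ((w + 1) * q + 2)) :
    (t : ℝ) * (15 * (s ^ 13 : ℕ) + 1) ^ (2 * (8 * s ^ 20 * 2)) *
      ((k : ℝ) ^ (-((8 * s ^ 20 * 2 - 2 * s ^ 20 : ℕ) * (1 : ℕ) : ℝ) / 2 ^ 5) *
        (1 / ((h : ℝ) / L)) ^ (4 * (8 * s ^ 20 * 2))) ≤ θ / 16 := by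
  have hs0 : 0 < s := lt_of_lt_of_le (by norm_num) hs
  have hsB : (2 : ℝ) ^ 60 ≤ s := by exact_mod_cast hs
  have hs1 : (1 : ℝ) ≤ s := le_trans (by norm_num) hsB
  have hs16 : (40 : ℝ) ≤ s := le_trans (by norm_num) hsB
  have hsR : (0 : ℝ) < s := by linarith
  have hη := (Pool.Agent.Helper97.BT.eta_le hs hk hL hh).2
  have hη0 : (0 : ℝ) ≤ 1 / ((h : ℝ) / L) := by positivity
  obtain ⟨z, hz⟩ : ∃ z : ℝ, z = (s : ℝ) ^ (s ^ 20) := ⟨_, rfl⟩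
  have hsz : (s : ℝ) ≤ z := by
    rw [hz]
    exact le_self_pow₀ hs1 (pow_pos hs0 20).ne'
  have hz1 : (1 : ℝ) ≤ z := hs1.trans hsz
  have hz0 : (0 : ℝ) < z := by linarith
  -- the types
  have h1 : (t : ℝ) ≤ z := by
    have a1 : (t : ℝ) ≤ (2 : ℝ) ^ (s ^ 20) := by exact_mod_cast types_le hs hw hq hS ht
    refine a1.trans ?_
    rw [hz]
    exact pow_le_pow_left₀ (by norm_num) (by linarith) _
  -- the holes
  have h2 : (15 * ((s ^ 13 : ℕ) : ℝ) + 1) ^ (2 * (8 * s ^ 20 * 2)) ≤ z ^ 448 := by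
    have a1 : 15 * ((s ^ 13 : ℕ) : ℝ) + 1 ≤ (s : ℝ) ^ 14 := by
      push_cast
      have a2 : (1 : ℝ) ≤ (s : ℝ) ^ 13 := one_le_pow₀ hs1
      calc 15 * (s : ℝ) ^ 13 + 1 ≤ 40 * (s : ℝ) ^ 13 := by linarith
        _ ≤ s * (s : ℝ) ^ 13 := mul_le_mul_of_nonneg_right hs16 (by positivity)
        _ = (s : ℝ) ^ 14 := by ring
    calc (15 * ((s ^ 13 : ℕ) : ℝ) + 1) ^ (2 * (8 * s ^ 20 * 2)) ≤ ((s : ℝ) ^ 14) ^ (2 * (8 * s ^ 20 * 2)) :=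
          pow_le_pow_left₀ (by positivity) a1 _
      _ = z ^ 448 := by
          rw [hz, ← pow_mul, ← pow_mul]
          congr 1
          ring
  -- the parts of the blocks
  have h3 : (1 / ((h : ℝ) / L)) ^ (4 * (8 * s ^ 20 * 2)) ≤ z ^ 192 := by
    have a1 : 1 / ((h : ℝ) / L) ≤ (s : ℝ) ^ 3 := by
      refine hη.trans ?_
      calc 40 * (s : ℝ) ^ 2 ≤ s * (s : ℝ) ^ 2 := mul_le_mul_of_nonneg_right hs16 (by positivity)
        _ = (s : ℝ) ^ 3 := by ring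
    calc (1 / ((h : ℝ) / L)) ^ (4 * (8 * s ^ 20 * 2)) ≤ ((s : ℝ) ^ 3) ^ (4 * (8 * s ^ 20 * 2)) :=
          pow_le_pow_left₀ hη0 a1 _
      _ = z ^ 192 := by
          rw [hz, ← pow_mul, ← pow_mul]
          congr 1
          ring
  -- the gain
  have h4 : (k : ℝ) ^ (-((8 * s ^ 20 * 2 - 2 * s ^ 20 : ℕ) * (1 : ℕ) : ℝ) / 2 ^ 5) ≤ (z ^ 875)⁻¹ := by
    have a1 : ((8 * s ^ 20 * 2 - 2 * s ^ 20 : ℕ) : ℝ) = 14 * (s : ℝ) ^ 20 := by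
      have a2 : 8 * s ^ 20 * 2 - 2 * s ^ 20 = 14 * s ^ 20 := by omega
      rw [a2]
      push_cast
      ring
    have hkR : ((s : ℝ) ^ (2000 : ℕ)) ≤ k := by exact_mod_cast hk
    have hp : (0 : ℝ) < (s : ℝ) ^ (2000 : ℕ) := by positivity
    have a3 : (-((8 * s ^ 20 * 2 - 2 * s ^ 20 : ℕ) * (1 : ℕ) : ℝ) / 2 ^ 5) = -(14 * (s : ℝ) ^ 20 / 32) := by
      rw [a1]
      push_cast
      ring
    rw [a3]
    calc (k : ℝ) ^ (-(14 * (s : ℝ) ^ 20 / 32)) ≤ ((s : ℝ) ^ (2000 : ℕ)) ^ (-(14 * (s : ℝ) ^ 20 / 32)) :=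
          Real.rpow_le_rpow_of_nonpos hp hkR (by
            have : (0 : ℝ) ≤ 14 * (s : ℝ) ^ 20 / 32 := by positivity
            linarith)
      _ = (z ^ 875)⁻¹ := by
          rw [Real.rpow_neg hp.le, ← Real.rpow_natCast (s : ℝ) 2000, ← Real.rpow_mul hsR.le, hz, ← pow_mul,
            ← Real.rpow_natCast (s : ℝ) (s ^ 20 * 875)]
          congr 2
          push_cast
          ring
  -- together
  have h5 : (t : ℝ) * (15 * ((s ^ 13 : ℕ) : ℝ) + 1) ^ (2 * (8 * s ^ 20 * 2)) ≤ z * z ^ 448 :=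
    mul_le_mul h1 h2 (by positivity) hz0.le
  have h6 : (k : ℝ) ^ (-((8 * s ^ 20 * 2 - 2 * s ^ 20 : ℕ) * (1 : ℕ) : ℝ) / 2 ^ 5) *
      (1 / ((h : ℝ) / L)) ^ (4 * (8 * s ^ 20 * 2)) ≤ (z ^ 875)⁻¹ * z ^ 192 :=
    mul_le_mul h4 h3 (by positivity) (by positivity)
  refine (mul_le_mul h5 h6 (by positivity) (by positivity)).trans ?_
  have h7 : z * z ^ 448 * ((z ^ 875)⁻¹ * z ^ 192) = (z ^ 234)⁻¹ := by
    have hz' := hz0.ne'
    field_simp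
  rw [h7]
  have h8 : (s : ℝ) ^ 2 ≤ z ^ 234 :=
    (pow_le_pow_left₀ hsR.le hsz 2).trans (pow_le_pow_right₀ hz1 (by norm_num))
  have h9 : (z ^ 234)⁻¹ ≤ ((s : ℝ) ^ 2)⁻¹ := inv_anti₀ (by positivity) h8
  refine h9.trans ?_
  have h10 : ((s : ℝ) ^ 2)⁻¹ ≤ 1 / (s : ℝ) / 16 := by
    rw [div_div, ← one_div]
    refine one_div_le_one_div_of_le (by positivity) ?_
    nlinarith
  exact h10.trans (by linarith)

end Pool.Agent.Helper42.BT
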